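import Pool.Agent.CRD.Main

/-!
# The categorical representability dimension is not upper semicontinuous in families
-/

open CategoryTheory AlgebraicGeometry Pool.CRD Polynomial

/-- For every field `k` of characteristic zero there is a smooth projective family `π` over the
affine curve `S = Spec k[t, 1 / (t (t - 1))]`, with integral geometric fibres, such that the set of
points `s` of `S` at which the geometric fibre has categorical representability dimension at most
`2` is not open in `S`. This holds for both conventions on semiorthogonal decompositions:
components arbitrary strictly full triangulated subcategories, or required to be admissible. -/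
theorem Pool.Agent.Results.MP_051437_ag.CrdNotSemicontinuous.result :
    ∀ (k : Type) [Field k] [CharZero k], ∃ (E : Scheme.{0})
      (π : E ⟶ Spec (CommRingCat.of (Localization.Away (X * (X - 1) : k[X]))))
      (_ : AlgebraicGeometry.Smooth π), IsProjectiveOver π ∧
      (∀ s, AlgebraicGeometry.IsIntegral (geomFibre π s).X) ∧
      ∀ adm : Prop,
        ¬ IsOpen {s : Spec (CommRingCat.of (Localization.Away (X * (X - 1) : k[X]))) |
          crdimW adm (geomFibre π s) ≤ 2} :=
  Pool.CRD.Main.ok_Stmt_CRD3
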